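import Pool.Agent.N561.C.Stm
import Pool.Agent.N855.VS.RB
import Pool.Agent.Y79.CG.Rhot2
import Pool.Agent.W709.QAT.Calc

/-!
# Volume conjecture, clasps, job K4: inequalities for real `ψ`
-/

set_option autoImplicit false

namespace Pool.Agent.N821.VK

open Filter Finset Topology MeasureTheory
open GapVol (lob g lob_sub lob_zero lob_cont lob_dup lob_half)
open EvenVol.LobIneq (lob_per lob_neg lob_nonneg g_nonpos_of)
open Pool.Agent.W709.QAT (lob_max lob_pi_sub)
open Pool.Agent.N561
open scoped Real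

/-- `π` times the exponent, in terms of the Lobachevsky function -/
noncomputable def HH (u x : ℝ) : ℝ := lob (π / 2 - u + x / 2) + lob (π / 2 - u - x / 2) + 3 * lob u

lemma LS_real {w : ℝ} (h0 : 0 ≤ w) (h1 : w ≤ π) : LS (w : ℂ) = ((-lob w : ℝ) : ℂ) := by
  unfold LS
  have h2 : ∫ t in (0:ℝ)..1, Complex.log (2 * Complex.sin (t * w)) =
      ((∫ t in (0:ℝ)..1, Real.log (2 * Real.sin (t * w)) : ℝ) : ℂ) := by
    rw [← intervalIntegral.integral_ofReal]
    apply intervalIntegral.integral_congr
    intro t ht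
    rw [Set.uIcc_of_le zero_le_one] at ht
    simp only
    have h3 : 0 ≤ Real.sin (t * w) := Real.sin_nonneg_of_nonneg_of_le_pi
      (mul_nonneg ht.1 h0) ((mul_le_of_le_one_left h0 ht.2).trans h1)
    rw [Complex.ofReal_log (by linarith)]
    push_cast
    rfl
  rw [h2, ← Complex.ofReal_mul]
  congr 1
  have h3 := intervalIntegral.mul_integral_comp_mul_right (a := 0) (b := 1)
    (f := fun s => Real.log (2 * Real.sin s)) (c := w)
  simp only [zero_mul, one_mul] at h3
  rw [h3]
  unfold lob
  rw [neg_neg]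
  apply intervalIntegral.integral_congr
  intro t _
  simp only [Real.log_abs]

lemma bb_HH (δ x : ℝ) : π * Pool.Agent.W711.HT.bb δ x = HH (π * δ) x - lob (π * δ) := by
  have hπ := Real.pi_pos
  rw [Pool.Agent.W688.HT.bb_eq]
  unfold HH
  have h1 : lob (x / 2 + π / 2 + π * δ) = -lob (π / 2 - π * δ - x / 2) := by
    rw [← lob_pi_sub]
    congr 1
    ring
  rw [h1, show x / 2 + π / 2 - π * δ = π / 2 - π * δ + x / 2 by ring]
  field_simp
  ring

lemma PCr_eq {δ : ℝ} (h0 : 0 ≤ δ) (h1 : δ ≤ 1) (x : ℝ) : PCr δ x = HH (π * δ) x / π := by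
  have hπ := Real.pi_pos
  have h2 := bb_HH δ x
  have h3 := LS_real (w := π * δ) (by positivity) (by nlinarith)
  push_cast at h3
  unfold PCr
  rw [h3, ← Complex.ofReal_neg, Complex.ofReal_re]
  field_simp
  linarith

lemma lob_anti {a b : ℝ} (ha : π / 6 ≤ a) (hab : a ≤ b) (hb : b ≤ π / 2) : lob b ≤ lob a := by
  have e := lob_sub a b
  have h2 : 0 ≤ ∫ t in a..b, -g t := by
    apply intervalIntegral.integral_nonneg hab
    intro t ht
    have := g_nonpos_of (ha.trans ht.1) (ht.2.trans hb)
    linarith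
  rw [intervalIntegral.integral_neg] at h2
  linarith

/-- beyond `δ = 1 / 2` -/
lemma HH_A {u x : ℝ} (h0 : π / 2 ≤ u) (h1 : u ≤ π) : HH u x ≤ 2 * lob (π / 6) := by
  have h2 := lob_nonneg (x := π - u) (by linarith) (by linarith)
  rw [lob_pi_sub] at h2
  have h3 := lob_max (π / 2 - u + x / 2)
  have h4 := lob_max (π / 2 - u - x / 2)
  unfold HH
  linarith

lemma HH_half (u : ℝ) : HH u (π / 2) = 1 / 2 * lob (π / 2 - 2 * u) + 3 * lob u := by
  have h1 := Pool.Agent.Y79.CG.lob_two (π / 4 - u)
  rw [show 2 * (π / 4 - u) = π / 2 - 2 * u by ring] at h1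
  unfold HH
  rw [h1, show π / 2 - u + π / 2 / 2 = π / 4 - u + π / 2 by ring,
    show π / 2 - u - π / 2 / 2 = π / 4 - u by ring]
  ring

/-- large `x` -/
lemma HH_D {u x : ℝ} (h0 : 0 ≤ u) (h1 : u ≤ π / 2) (hx : π / 2 ≤ x) (hx' : x ≤ π) :
    HH u x ≤ 7 / 2 * lob (π / 6) := by
  have hπ := Real.pi_pos
  have e : π * (u / π) = u := by field_simp
  have h2 := Pool.Agent.N855.VS.bb_anti (δ := u / π) (x := π / 2) (y := x) (by positivity)
    (by rw [div_le_iff₀ hπ]; linarith) (by positivity) (by rw [abs_of_nonneg (by linarith)]; exact hx)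
    (by rw [abs_of_nonneg (by linarith)]; exact hx')
  have h3 := bb_HH (u / π) x
  have h4 := bb_HH (u / π) (π / 2)
  rw [e] at h3 h4
  have h5 := mul_le_mul_of_nonneg_left h2 hπ.le
  have h6 := HH_half u
  have h7 := lob_max (π / 2 - 2 * u)
  have h8 := lob_max u
  linarith

/-- beyond the crossing -/
lemma HH_C {u x : ℝ} (hx : x ≤ π / 2) (h0 : π / 2 - x / 2 ≤ u) (h1 : u ≤ π / 2) :
    HH u x ≤ lob (π / 3) + 3 * lob (π / 4) ∨ HH u x ≤ lob (π / 6) + 3 * lob (π / 3) := by
  have hπ := Real.pi_pos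
  have h2 : 0 ≤ lob (u + x / 2 - π / 2) := lob_nonneg (by linarith) (by linarith)
  have h3 : lob (π / 2 - u - x / 2) = -lob (u + x / 2 - π / 2) := by
    rw [← lob_neg]
    congr 1
    ring
  have h4 : lob u ≤ lob (π / 4) := lob_anti (by linarith) (by linarith) h1
  unfold HH
  rw [h3]
  rcases le_total (π / 3) (π / 2 - u + x / 2) with h | h
  · left
    have h5 : lob (π / 2 - u + x / 2) ≤ lob (π / 3) := lob_anti (by linarith) h (by linarith)
    linarith
  · right
    have h5 := lob_max (π / 2 - u + x / 2)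
    have h6 : lob u ≤ lob (π / 3) := lob_anti (by linarith) (by linarith) h1
    linarith

lemma lob_uc (ε : ℝ) (hε : 0 < ε) : ∃ ρ : ℝ, 0 < ρ ∧ ∀ a b : ℝ, |a| ≤ 4 → |b| ≤ 4 → |a - b| < ρ →
    |lob a - lob b| < ε := by
  have h1 : UniformContinuousOn lob (Set.Icc (-4) 4) :=
    isCompact_Icc.uniformContinuousOn_of_continuous lob_cont.continuousOn
  rw [Metric.uniformContinuousOn_iff] at h1
  obtain ⟨ρ, h2, h3⟩ := h1 ε hε
  exact ⟨ρ, h2, fun a b ha hb h => h3 a (abs_le.1 ha) b (abs_le.1 hb) (by rwa [Real.dist_eq])⟩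

theorem creal (hV : S_CV) : S_CREAL := by
  have hπ := Real.pi_gt_d4
  have hπ2 := Real.pi_lt_d4
  norm_num at hπ hπ2
  have hπ0 := Real.pi_pos
  have n6 := Pool.Agent.Y79.CG.lob_pi_six
  have n4 := Pool.Agent.Y79.CG.lob_pi_four
  have n3 := lob_dup
  have hV' : 57 / 100 < (FC 0).re := hV
  have n60 := EvenVol.LobIneq.lob_six_pos
  norm_num at n6 n4
  obtain ⟨ρ, hρ, huc⟩ := lob_uc (1 / 1000) (by norm_num)
  have hm : min ρ 1 ≤ ρ := min_le_left _ _
  have hm1 : min ρ 1 ≤ 1 := min_le_right _ _
  have hm0 : 0 < min ρ 1 := lt_min hρ one_pos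
  refine ⟨1 / 1000, π / 2 - min ρ 1, min (ρ / 8) (1 / 10), by norm_num, by linarith, by linarith,
    lt_min (by linarith) (by norm_num), min_le_right _ _, ?_, ?_⟩
  · intro δ x hδ0 hδ1 hx hxπ
    rw [PCr_eq hδ0 hδ1, div_le_iff₀ hπ0]
    have hu0 : 0 ≤ π * δ := by positivity
    have hu1 : π * δ ≤ π := by nlinarith
    have key : HH (π * δ) x ≤ 1782 / 1000 := by
      rcases le_total (π / 2) (π * δ) with h | h
      · have := HH_A (x := x) h hu1
        linarith
      · rcases le_total (π / 2) x with hx2 | hx2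
        · have := HH_D hu0 h hx2 hxπ
          linarith
        · have h1 := HH_D hu0 h le_rfl (by linarith : π / 2 ≤ π)
          have h2 := huc (π / 2 - π * δ + x / 2) (π / 2 - π * δ + π / 2 / 2)
            (by rw [abs_le]; constructor <;> linarith) (by rw [abs_le]; constructor <;> linarith)
            (by rw [abs_lt]; constructor <;> linarith)
          have h3 := huc (π / 2 - π * δ - x / 2) (π / 2 - π * δ - π / 2 / 2)
            (by rw [abs_le]; constructor <;> linarith) (by rw [abs_le]; constructor <;> linarith)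
            (by rw [abs_lt]; constructor <;> linarith)
          rw [abs_lt] at h2 h3
          unfold HH at h1 ⊢
          linarith [h2.2, h3.2]
    nlinarith
  · intro δ x hx0 hx1 hδ0 hδ1
    have hδ00 : 0 ≤ δ := by
      have h1 : x / (2 * π) ≤ 1 / 4 := by
        rw [div_le_iff₀ (by positivity)]; linarith
      have h2 : min (ρ / 8) (1 / 10 : ℝ) ≤ 1 / 10 := min_le_right _ _
      linarith
    rw [PCr_eq hδ00 hδ1, div_le_iff₀ hπ0]
    have hmid : π * (1 / 2 - x / (2 * π)) = π / 2 - x / 2 := by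
      field_simp
    have hη : min (ρ / 8) (1 / 10 : ℝ) ≤ ρ / 8 := min_le_left _ _
    have key : HH (π * δ) x ≤ 1782 / 1000 := by
      have hx2 : x ≤ π / 2 := by linarith
      have hC : ∀ u : ℝ, π / 2 - x / 2 ≤ u → u ≤ π → HH u x ≤ 1777 / 1000 := by
        intro u h1 h2
        rcases le_total (π / 2) u with h | h
        · have := HH_A (x := x) h h2
          linarith
        · rcases HH_C hx2 h1 h with h3 | h3 <;> linarith
      have hu1 : π * δ ≤ π := by nlinarith
      have hu0 : 0 ≤ π * δ := by positivity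
      rcases le_total (π / 2 - x / 2) (π * δ) with h | h
      · have := hC _ h hu1
        linarith
      · have h1 := hC (π / 2 - x / 2) le_rfl (by linarith)
        have h4 : π / 2 - x / 2 - π * δ < ρ := by
          rw [← hmid]
          have h5 : 1 / 2 - x / (2 * π) - δ ≤ ρ / 8 := by linarith
          have h6 : π * (1 / 2 - x / (2 * π) - δ) ≤ π * (ρ / 8) :=
            mul_le_mul_of_nonneg_left h5 hπ0.le
          nlinarith
        have h2 := huc (π / 2 - π * δ + x / 2) (π / 2 - (π / 2 - x / 2) + x / 2)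
          (by rw [abs_le]; constructor <;> linarith) (by rw [abs_le]; constructor <;> linarith)
          (by rw [abs_lt]; constructor <;> linarith)
        have h3 := huc (π / 2 - π * δ - x / 2) (π / 2 - (π / 2 - x / 2) - x / 2)
          (by rw [abs_le]; constructor <;> linarith) (by rw [abs_le]; constructor <;> linarith)
          (by rw [abs_lt]; constructor <;> linarith)
        have h5 := huc (π * δ) (π / 2 - x / 2)
          (by rw [abs_le]; constructor <;> linarith) (by rw [abs_le]; constructor <;> linarith)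
          (by rw [abs_lt]; constructor <;> linarith)
        rw [abs_lt] at h2 h3 h5
        unfold HH at h1 ⊢
        linarith [h2.2, h3.2, h5.2]
    nlinarith

end Pool.Agent.N821.VK
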